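import Mathlib

/-!
# Complete mixability of the uniform distribution on symmetric convex bodies (helper381)

Statements (as propositions `S_X`) of the project `MP_a34d76_pr`: the uniform distribution on a
centrally symmetric convex body is `n`-completely mixable for every `n ≥ 2`.
-/

set_option autoImplicit false
open MeasureTheory Matrix Filter Topology
open scoped ENNReal BigOperators Pointwise

namespace Pool.Agent.H381CM

/-- Euclidean space as `Fin d → ℝ` -/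
abbrev V (d : ℕ) := Fin d → ℝ

/-- `n`-complete mixability with zero sum -/
def CM0 (d n : ℕ) (μ : Measure (V d)) : Prop :=
  ∃ P : Measure (Fin n → V d), IsProbabilityMeasure P ∧
    (∀ i : Fin n, P.map (fun x : Fin n → V d => x i) = μ) ∧ ∀ᵐ x ∂P, (∑ i, x i) = 0

/-- uniform distribution on a set -/
noncomputable def unif {d : ℕ} (K : Set (V d)) : Measure (V d) := (volume K)⁻¹ • volume.restrict K

/-- `∑ a_k u_k u_kᵀ` -/
noncomputable def AA {d : ℕ} {ι : Type} [Fintype ι] (u : ι → V d) (a : ι → ℝ) :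
    Matrix (Fin d) (Fin d) ℝ := ∑ k, a k • vecMulVec (u k) (u k)

/-- the matrix with rows `u_{f 0}, …, u_{f (d-1)}` -/
def UU {d : ℕ} {ι : Type} (u : ι → V d) (f : Fin d → ι) : Matrix (Fin d) (Fin d) ℝ :=
  Matrix.of fun r => u (f r)

/-- the `u_k` span (no nonzero vector is orthogonal to all of them) -/
def Spans {d : ℕ} {ι : Type} (u : ι → V d) : Prop := ∀ x : V d, (∀ k, u k ⬝ᵥ x = 0) → x = 0

/-- `X(t) = p(e^{-t})` -/
noncomputable def XX (p : Polynomial ℝ) (t : ℝ) : ℝ := p.eval (Real.exp (-t))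

/-- `-X'(t) = e^{-t} p'(e^{-t})` -/
noncomputable def QQ (p : Polynomial ℝ) (t : ℝ) : ℝ :=
  Real.exp (-t) * p.derivative.eval (Real.exp (-t))

/-- `|ξ_k|² = ⟨u_k,x⟩² + ⟨u_k,y⟩² + ⟨u_k,z⟩²` -/
noncomputable def tt {d : ℕ} {ι : Type} (u : ι → V d) (x y z : V d) (k : ι) : ℝ :=
  (u k ⬝ᵥ x) ^ 2 + (u k ⬝ᵥ y) ^ 2 + (u k ⬝ᵥ z) ^ 2

open Classical in
/-- the lifted density `π^{-d} ∑_I det(u_I)² ∏_{i∈I} (-X_i'(|ξ_i|²)) ∏_{k∉I} X_k(|ξ_k|²)`
(sum over maps `f : Fin d → ι`, each `d`-subset being counted `d!` times) -/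
noncomputable def GG {d : ℕ} {ι : Type} [Fintype ι] (u : ι → V d) (p : ι → Polynomial ℝ)
    (x y z : V d) : ℝ :=
  (1 / (Real.pi ^ d * (d.factorial : ℝ))) * ∑ f : Fin d → ι, (UU u f).det ^ 2 *
    ∏ k, (if ∃ r, f r = k then QQ (p k) (tt u x y z k) else XX (p k) (tt u x y z k))

/-- the density `∏ X_k(⟨u_k,x⟩²)` -/
noncomputable def gg {d : ℕ} {ι : Type} [Fintype ι] (u : ι → V d) (p : ι → Polynomial ℝ)
    (x : V d) : ℝ := ∏ k, XX (p k) ((u k ⬝ᵥ x) ^ 2)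

/-- admissible polynomials: `p(0) = 0`, `p ≥ 0` and `p' ≥ 0` on `[0,1]` -/
def Adm (p : Polynomial ℝ) : Prop :=
  p.coeff 0 = 0 ∧ ∀ q : ℝ, 0 ≤ q → q ≤ 1 → 0 ≤ p.eval q ∧ 0 ≤ p.derivative.eval q

/-- the bump polynomials `1 - (1 - q^j)^M`, `M = ⌈e^j⌉` -/
noncomputable def bump (j : ℕ) : Polynomial ℝ :=
  1 - (1 - Polynomial.X ^ j) ^ ⌈Real.exp j⌉₊

/-- the polytope `{x : |⟨u_k,x⟩| ≤ 1}` -/
def Pol {d : ℕ} {ι : Type} (u : ι → V d) : Set (V d) := {x | ∀ k, |u k ⬝ᵥ x| ≤ 1}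

/-! ## The statements -/

/-- Cauchy–Binet in symmetrised form -/
def S_DET : Prop := ∀ (d : ℕ) (ι : Type) [Fintype ι] (u : ι → V d) (a : ι → ℝ),
  (AA u a).det * (d.factorial : ℝ) = ∑ f : Fin d → ι, (UU u f).det ^ 2 * ∏ r, a (f r)

open Classical in
/-- expansion of the lifted density in Gaussians -/
def S_EXP : Prop := ∀ (d : ℕ) (ι : Type) [Fintype ι] (u : ι → V d) (p : ι → Polynomial ℝ) (M : ℕ),
  (∀ k, (p k).natDegree < M) → ∀ x y z : V d,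
  GG u p x y z = ∑ m : ι → Fin M,
    (∏ k, (p k).coeff (m k : ℕ)) * ((AA u (fun k => ((m k : ℕ) : ℝ))).det / Real.pi ^ d) *
      Real.exp (-∑ k, ((m k : ℕ) : ℝ) * tt u x y z k)

/-- Gaussian integrals -/
def S_GAU : Prop := ∀ (d : ℕ) (A : Matrix (Fin d) (Fin d) ℝ), A.PosDef →
  Integrable (fun y : V d => Real.exp (-(y ⬝ᵥ A *ᵥ y))) ∧
  Integrable (fun q : V d × V d => Real.exp (-(q.1 ⬝ᵥ A *ᵥ q.1 + q.2 ⬝ᵥ A *ᵥ q.2))) ∧
  ∫ q : V d × V d, Real.exp (-(q.1 ⬝ᵥ A *ᵥ q.1 + q.2 ⬝ᵥ A *ᵥ q.2)) = Real.pi ^ d / A.det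

/-- positive definiteness and the quadratic form of `AA` -/
def S_PDF : Prop := ∀ (d : ℕ) (ι : Type) [Fintype ι] (u : ι → V d) (a : ι → ℝ),
  (∀ x : V d, x ⬝ᵥ (AA u a) *ᵥ x = ∑ k, a k * (u k ⬝ᵥ x) ^ 2) ∧
  (Spans u → (∀ k, 0 < a k) → (AA u a).PosDef)

/-- the marginal of the lifted density -/
def S_MAR : Prop := ∀ (d : ℕ) (ι : Type) [Fintype ι] (u : ι → V d) (p : ι → Polynomial ℝ),
  Spans u → (∀ k, (p k).coeff 0 = 0) → ∀ x : V d,
  Integrable (fun q : V d × V d => GG u p x q.1 q.2) ∧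
  ∫ q : V d × V d, GG u p x q.1 q.2 = gg u p x

/-- a rotation invariant density on `V × V × V` gives a zero-sum coupling of its marginal -/
def S_ROT : Prop := ∀ (d n : ℕ), 2 ≤ n → ∀ (G : V d → V d → V d → ℝ≥0∞),
  Measurable (fun q : V d × V d × V d => G q.1 q.2.1 q.2.2) →
  (∀ (θ : ℝ) (x y z : V d),
    G (Real.cos θ • x + Real.sin θ • y) (-(Real.sin θ) • x + Real.cos θ • y) z = G x y z) →
  ∀ (g : V d → ℝ≥0∞), (∀ x, ∫⁻ q : V d × V d, G x q.1 q.2 = g x) → ∫⁻ x, g x = 1 →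
  CM0 d n (volume.withDensity g)

/-- complete mixability of the smooth product densities -/
def S_PCM : Prop := ∀ (d n : ℕ), 2 ≤ n → ∀ (ι : Type) [Fintype ι] (u : ι → V d)
  (p : ι → Polynomial ℝ), Spans u → (∀ k, Adm (p k)) →
  Integrable (gg u p) → 0 < ∫ x, gg u p x →
  CM0 d n (volume.withDensity fun x => ENNReal.ofReal (gg u p x / ∫ x, gg u p x))

/-- the bump polynomials -/
def S_BMP : Prop := (∀ j : ℕ, 1 ≤ j → Adm (bump j)) ∧
  (∀ j : ℕ, 1 ≤ j → ∀ t : ℝ, 0 ≤ t → 0 ≤ XX (bump j) t ∧ XX (bump j) t ≤ 1 ∧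
    XX (bump j) t ≤ 2 * Real.exp 1 * Real.exp (-t)) ∧
  (∀ t : ℝ, 0 ≤ t → t < 1 → Tendsto (fun j => XX (bump j) t) atTop (𝓝 1)) ∧
  (∀ t : ℝ, 1 < t → Tendsto (fun j => XX (bump j) t) atTop (𝓝 0))

/-- complete mixability with zero sum is closed under weak limits of tight sequences -/
def S_CLO : Prop := ∀ (d n : ℕ), 0 < n → ∀ (μ : ℕ → Measure (V d)) (ν : Measure (V d)),
  (∀ j, IsProbabilityMeasure (μ j)) → IsProbabilityMeasure ν → (∀ j, CM0 d n (μ j)) →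
  (∀ ε : ℝ≥0∞, 0 < ε → ∃ K : Set (V d), IsCompact K ∧ ∀ j, μ j Kᶜ ≤ ε) →
  (∀ φ : BoundedContinuousFunction (V d) ℝ,
    Tendsto (fun j => ∫ x, φ x ∂μ j) atTop (𝓝 (∫ x, φ x ∂ν))) → CM0 d n ν

/-- symmetric polytopes: topology and measure -/
def S_PTP : Prop := ∀ (d : ℕ) (ι : Type) [Fintype ι] (u : ι → V d), Spans u →
  IsCompact (Pol u) ∧ 0 < volume (Pol u) ∧ volume (Pol u) < ⊤ ∧
  volume {x : V d | ∃ k, |u k ⬝ᵥ x| = 1} = 0

/-- symmetric polytopes are completely mixable -/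
def S_POL : Prop := ∀ (d n : ℕ), 2 ≤ n → ∀ (ι : Type) [Fintype ι] (u : ι → V d), Spans u →
  CM0 d n (unif (Pol u))

/-- approximation of symmetric convex bodies by polytopes from outside -/
def S_APX : Prop := ∀ (d : ℕ) (C : Set (V d)), Convex ℝ C → Bornology.IsBounded C →
  (0 : V d) ∈ interior C → (∀ x ∈ C, -x ∈ C) → ∀ t : ℝ, 1 < t →
  ∃ (N : ℕ) (u : Fin N → V d), Spans u ∧ C ⊆ Pol u ∧ Pol u ⊆ t • closure C

/-- symmetric convex bodies centred at `0` are completely mixable -/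
def S_SYM : Prop := ∀ (d n : ℕ), 2 ≤ n → ∀ (C : Set (V d)), Convex ℝ C →
  Bornology.IsBounded C → (0 : V d) ∈ interior C → (∀ x ∈ C, -x ∈ C) → CM0 d n (unif C)

/-- a convex set of positive finite volume is bounded and has interior points -/
def S_BDD : Prop := ∀ (d : ℕ) (C : Set (V d)), Convex ℝ C → 0 < volume C → volume C < ⊤ →
  Bornology.IsBounded C ∧ (interior C).Nonempty

/-- the final theorem -/
def S_FIN : Prop := ∀ (d : ℕ) (C : Set (Fin d → ℝ)), Convex ℝ C → 0 < volume C → volume C < ⊤ →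
  (∃ c : Fin d → ℝ, ∀ x ∈ C, (2 : ℝ) • c - x ∈ C) → ∀ n : ℕ, 2 ≤ n →
    ∃ P : Measure (Fin n → (Fin d → ℝ)), IsProbabilityMeasure P ∧
      (∀ i : Fin n, P.map (fun x : Fin n → (Fin d → ℝ) => x i)
        = (volume C)⁻¹ • volume.restrict C) ∧
      ∃ c : Fin d → ℝ, ∀ᵐ x ∂P, (∑ i, x i) = c

end Pool.Agent.H381CM
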